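import Pool.Agent.H.MP_30e1ee_an.D

set_option autoImplicit false

open Filter Topology MeasureTheory
open scoped ENNReal

namespace Pool.Agent.Results.MP_30e1ee_an.No

/-- The pair `(E, F)` has the weak maximizing property. -/
def WMP (𝕜 E F : Type) [RCLike 𝕜] [NormedAddCommGroup E] [NormedSpace 𝕜 E]
    [NormedAddCommGroup F] [NormedSpace 𝕜 F] : Prop :=
  ∀ T : E →L[𝕜] F, (∃ x : ℕ → E, (∀ n, ‖x n‖ = 1) ∧ Tendsto (fun n => ‖T (x n)‖) atTop (𝓝 ‖T‖) ∧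
    ¬ ∀ φ : StrongDual 𝕜 E, Tendsto (fun n => φ (x n)) atTop (𝓝 0)) →
    ∃ x, ‖x‖ = 1 ∧ ‖T x‖ = ‖T‖

theorem result (𝕜 : Type) [RCLike 𝕜] (p q : ℝ≥0∞) [Fact (1 ≤ p)] [Fact (1 ≤ q)] (h1 : 1 < p)
    (h2 : p ≤ 2) (h3 : 2 ≤ q) (h4 : q < ∞) (h5 : (p, q) ≠ (2, 2)) :
    ¬ WMP 𝕜 (Lp 𝕜 p (volume : Measure unitInterval)) (Lp 𝕜 q (volume : Measure unitInterval)) :=
  fun h => by
    obtain ⟨T, a, b⟩ := Pool.Agent.H.MP_30e1ee_an.main 𝕜 p q h1 h2 h3 h4 h5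
    exact b (h T a)

end Pool.Agent.Results.MP_30e1ee_an.No
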